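import Pool.Agent.H644R2.GKS.Final

/-!
# The expected cost of the permutation-streaming game is `n^{o(1)}`

`MP_a7c66d_lc`, Q1: disproof.

The protocol (for a parameter `s`; `m = s(s+1)`, `M = m + s`, `q ≈ n^{1/s}`, `w ≈ 2(m+1) q log n`).
Fix a random class `c i ∈ {0, …, m}` for every element and `M` random functions `F_k` from subsets of
`[n]` to `Z/q`.  Alice writes `0` until `u = M w + M + 3` elements are left; let `U` be the set of
these elements.  The next `M w` arrivals are split into `M` windows.  In window `k` Alice deletes
(writes `0` on) the first element `i` with class `min(k, m)` such that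
`F_k((T \ {i}) ∩ C_k) = 0`, where `T ⊆ U` is the current set and `C_k` is the set of elements with
class `≤ k` or `= m`; she writes `1` on the others.  The deletions of the stages `j > k`, `j < m`
do not meet `C_k`, so the test `k` is still satisfied after them.  After the windows she writes `1`
if all the stages succeeded and `0` otherwise.

If a stage fails (probability `≤ M / n²`), Bob sees a small support and outputs `[n]`.  Otherwise he
sees the final set `T*` or `T*` minus the last element, and outputs what he sees together with all
`x` such that adding `x` gives a set which passes all the tests with some guess `e` of the `s`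
elements deleted in the last `s` stages.  The expected number of false `x` is polylogarithmic: if `e`
contains a wrong element, then the first `m` tests are independent of the true ones and
`n^{s+1} q^{-m} ≤ 1`; if not, the last `s` tests are and `n q^{-s} ≤ 1`; the union over the possible
true deletions costs the factor `(w / q)^M`.

All definitions (`Protocol`, `Protocol.final`, `Protocol.Valid`, `Protocol.cost`, `costs`, `Ct`)
are in `Pool/Agent/H644R2/GKS/Model.lean`.
-/

open Filter Topology

namespace Pool.Agent.Results.MP_a7c66d_lc.ExpectedCostSubpoly

open H644R2.GKS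

theorem result :
    (∀ n : ℕ, IsLeast (costs n) (Ct n)) ∧
    (∀ δ : ℝ, 0 < δ → Tendsto (fun n : ℕ => Ct n / (n : ℝ) ^ δ) atTop (𝓝 0)) ∧
    ¬ ∃ δ : ℝ, 0 < δ ∧ ∃ c : ℝ, 0 < c ∧ ∀ᶠ n : ℕ in atTop, c * (n : ℝ) ^ δ ≤ Ct n :=
  ⟨costs_isLeast, Ct_tendsto, no_poly_lower_bound⟩

end Pool.Agent.Results.MP_a7c66d_lc.ExpectedCostSubpoly
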